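import Mathlib
import Pool.Agent.H6.Pen

namespace Pool.Agent.Results.MP_5bb8bc_co.Counter

open Finset Module Pool.Agent.H6.Pen

/-- A binary matroid on the ground set `Fin n`, given by its cycle space. -/
structure BM where
  n : ℕ
  C : Submodule (ZMod 2) (Fin n → ZMod 2)

/-- The dual matroid: its cycle space is the orthogonal complement (the cocycle space). -/
abbrev BM.dual (M : BM) : BM where
  n := M.n
  C := { carrier := {y | ∀ x ∈ M.C, x ⬝ᵥ y = 0}
         add_mem' := fun a b x h => by rw [dotProduct_add, a x h, b x h, add_zero]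
         zero_mem' := fun _ _ => dotProduct_zero _
         smul_mem' := fun _ _ a x h => by rw [dotProduct_smul, a x h, smul_zero] }

/-- Every element lies in a cycle. -/
def Bridgeless (M : BM) : Prop := ∀ e, ∃ x ∈ M.C, x e ≠ 0

/-- `N` is isomorphic to the reduction or to the contraction of `M` to a subset `range f`. -/
def Step (M N : BM) : Prop := ∃ f : Fin N.n ↪ Fin M.n,
  (∀ y, y ∈ N.C ↔ Function.extend f y 0 ∈ M.C) ∨ ∀ y, y ∈ N.C ↔ ∃ x ∈ M.C, x ∘ f = y

/-- Isomorphism of binary matroids. -/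
def Iso (M N : BM) : Prop := ∃ f : Fin N.n ≃ Fin M.n, ∀ x, x ∈ M.C ↔ x ∘ f ∈ N.C

/-- The bicycle space: the cycles `x` such that `x ∩ A` is a cocycle. -/
def bicycle (M : BM) (A : Finset (Fin M.n)) : Submodule (ZMod 2) (Fin M.n → ZMod 2) :=
  M.C ⊓ M.dual.C.comap (LinearMap.mulLeft (ZMod 2) fun e => if e ∈ A then 1 else 0)

/-- The Penrose polynomial. -/
noncomputable def penrose (M : BM) : Polynomial ℤ :=
  ∑ A : Finset (Fin M.n), (-1) ^ #A * Polynomial.X ^ finrank (ZMod 2) (bicycle M A)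

/-- The Penrose polynomial has alternating coefficients. -/
def Alternating (M : BM) : Prop :=
  ∀ i ≤ finrank (ZMod 2) M.C, 0 < (-1) ^ (finrank (ZMod 2) M.C - i) * (penrose M).coeff i

/-- Minimal non-alternating bridgeless binary matroids. -/
def MinimalNonAlt (M : BM) : Prop := Bridgeless M ∧ ¬ Alternating M ∧
  ∀ N, Relation.ReflTransGen Step M N → N.n < M.n → Bridgeless N → Alternating N

/-- The cycle matroid of the graph whose `e`-th edge has ends `a e` and `b e`: the cycles are the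
edge sets of even degree at every vertex. -/
abbrev graphic {m k : ℕ} (a b : Fin m → Fin k) : BM where
  n := m
  C := { carrier := {x | ∀ v, ∑ e with a e = v, x e + ∑ e with b e = v, x e = 0}
         add_mem' := fun h g v => by
           simp only [Pi.add_apply, sum_add_distrib]; linear_combination h v + g v
         zero_mem' := fun _ => by simp
         smul_mem' := fun c _ h v => by
           simp only [Pi.smul_apply, smul_eq_mul, ← mul_sum]; linear_combination c * h v }

/-- The Fano matroid: the cycle space is spanned by the lines `{i, i + 1, i + 3}` modulo 7. -/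
abbrev Fano : BM :=
  ⟨7, .span _ (Set.range fun i e : Fin 7 => if e = i ∨ e = i + 1 ∨ e = i + 3 then 1 else 0)⟩

/-- The Petersen graph: outer cycle `0,…,4`, spokes, inner pentagram on `5,…,9`. -/
abbrev Pet : BM := graphic (k := 10) ![0, 1, 2, 3, 4, 0, 1, 2, 3, 4, 5, 6, 7, 8, 9]
  ![1, 2, 3, 4, 0, 5, 6, 7, 8, 9, 7, 8, 9, 5, 6]

/-- The complete graph on five vertices. -/
abbrev K5 : BM := graphic (k := 5) ![0, 0, 0, 0, 1, 1, 1, 2, 2, 3] ![1, 2, 3, 4, 2, 3, 4, 3, 4, 4]

/-- The cycle space of `M` is the cut space of a graph. -/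
def Cographic (M : BM) : Prop := ∃ (V : Type) (a b : Fin M.n → V),
  ∀ x, x ∈ M.C ↔ ∃ S : V → ZMod 2, ∀ e, x e = S (a e) + S (b e)

lemma dd (M : BM) : M.dual.dual.C = M.C :=
  LinearMap.BilinForm.orthogonal_orthogonal (B := dotProductBilin (ZMod 2) (ZMod 2))
    ⟨fun _ h => dotProduct_eq_zero _ h, fun x h => dotProduct_eq_zero _ fun y => by
      rw [dotProduct_comm]; exact h y⟩ (fun x y h => (dotProduct_comm y x).trans h) M.C

lemma ext_dot {n m : ℕ} (f : Fin n ↪ Fin m) (x : Fin m → ZMod 2) (y : Fin n → ZMod 2) :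
    x ⬝ᵥ Function.extend f y 0 = x ∘ f ⬝ᵥ y :=
  (Fintype.sum_of_injective f f.injective _ _
    (fun i h => by rw [Function.extend_apply' _ _ _ h]; simp)
    fun i => by rw [f.injective.extend_apply]; rfl).symm

lemma Step.dual {M N : BM} (h : Step M N) : Step M.dual N.dual := by
  have A : ∀ {M N : BM} (f : Fin N.n ↪ Fin M.n), (∀ y, y ∈ N.C ↔ ∃ x ∈ M.C, x ∘ f = y) →
      ∀ y, y ∈ N.dual.C ↔ Function.extend f y 0 ∈ M.dual.C := fun f h y =>
    ⟨fun a x c => (ext_dot f x y).trans (a _ ((h _).mpr ⟨x, c, rfl⟩)), fun a z c => by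
      obtain ⟨x, d, rfl⟩ := (h z).mp c
      exact (ext_dot f x y).symm.trans (a x d)⟩
  obtain ⟨f, h | h⟩ := h
  · let N' : BM := ⟨N.n, M.dual.C.map (LinearMap.funLeft _ _ f)⟩
    have e : N'.dual.C = N.C := Submodule.ext fun y =>
      (A (M := M.dual) (N := N') f (fun _ => Iff.rfl) y).trans (by rw [dd]; exact (h y).symm)
    refine ⟨f, .inr fun y => ?_⟩
    change _ ↔ y ∈ N'.C
    rw [← dd N']
    change (∀ x ∈ N.C, _) ↔ ∀ x ∈ N'.dual.C, _
    rw [e]
  · exact ⟨f, .inl (A f h)⟩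

lemma Iso.step {M N : BM} (h : Iso M N) : Step M N := by
  obtain ⟨f, h⟩ := h
  refine ⟨f.toEmbedding, .inr fun y => ⟨fun c => ⟨y ∘ f.symm, (h _).mpr ?_, ?_⟩, ?_⟩⟩
  · simpa [Function.comp_assoc] using c
  · simp [Function.comp_assoc]
  · rintro ⟨x, c, rfl⟩
    exact (h x).mp c

lemma Cographic.step {M N : BM} (h : Cographic M) (s : Step M N) : Cographic N := by
  obtain ⟨V, a, b, h⟩ := h
  obtain ⟨f, s | s⟩ := s
  · refine ⟨Quot fun u v => ∃ e, (¬ ∃ i, f i = e) ∧ a e = u ∧ b e = v, fun e => Quot.mk _ (a (f e)),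
      fun e => Quot.mk _ (b (f e)), fun y => (s y).trans ((h _).trans ⟨fun ⟨S, c⟩ => ?_,
        fun ⟨S, c⟩ => ⟨fun v => S (Quot.mk _ v), fun e => ?_⟩⟩)⟩
    · refine ⟨Quot.lift S ?_, fun e => (f.injective.extend_apply _ _ e).symm.trans (c _)⟩
      rintro _ _ ⟨e, d, rfl, rfl⟩
      have := c e
      rw [Function.extend_apply' _ _ _ d] at this
      exact CharTwo.add_eq_zero.mp this.symm
    · by_cases d : ∃ i, f i = e
      · obtain ⟨i, rfl⟩ := d
        exact (f.injective.extend_apply _ _ i).trans (c i)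
      · rw [Function.extend_apply' _ _ _ d]
        exact (CharTwo.add_eq_zero.mpr (congrArg S (Quot.sound ⟨e, d, rfl, rfl⟩))).symm
  · refine ⟨V, a ∘ f, b ∘ f, fun y => (s y).trans ⟨?_, fun ⟨S, c⟩ =>
      ⟨_, (h _).mpr ⟨S, fun _ => rfl⟩, (funext c).symm⟩⟩⟩
    rintro ⟨x, c, rfl⟩
    obtain ⟨S, d⟩ := (h x).mp c
    exact ⟨S, fun e => d _⟩

lemma bound {M : BM} (h : Cographic M) {w d : ℕ} (hw : ∀ x ∈ M.C, x ≠ 0 → w ≤ #{e | x e ≠ 0})
    (β : Fin (d + 1) → Fin M.n → ZMod 2) (h1 : ∀ j, β j ∈ M.C)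
    (h2 : ∀ c : Fin (d + 1) → ZMod 2, ∑ j, c j • β j = 0 → ∀ j, c j = 0) :
    (d + 2) * w ≤ 2 * M.n := by
  classical
  obtain ⟨V, a, b, h⟩ := h
  let st : V → Fin M.n → ZMod 2 := fun v e => (if a e = v then 1 else 0) + if b e = v then 1 else 0
  let Z : Finset V := {v ∈ univ.image a ∪ univ.image b | st v ≠ 0}
  have s1 : ∀ S : V → ZMod 2, (fun e => S (a e) + S (b e)) = ∑ v ∈ Z, S v • st v := fun S => by
    refine .trans ?_ (sum_filter_of_ne (p := fun v => st v ≠ 0)
      fun v _ c d => c (by rw [d, smul_zero])).symm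
    ext e
    simp [st, Finset.sum_apply, mul_add, sum_add_distrib]
  have c1 : #Z * w ≤ #(univ : Finset (Fin M.n)) * 2 :=
    card_mul_le_card_mul (fun v e => st v e ≠ 0) (fun v hv => hw _
      ((h _).mpr ⟨fun u => if u = v then 1 else 0, fun _ => rfl⟩) (mem_filter.mp hv).2) fun e _ =>
      (card_le_card (t := {a e, b e}) fun v hv => by
        have := (mem_filter.mp hv).2
        simp only [st, mem_insert, mem_singleton] at this ⊢
        grind).trans card_le_two
  have li := Fintype.linearIndependent_iff.mpr h2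
  obtain ⟨v, hv⟩ : Z.Nonempty := by
    by_contra! c
    obtain ⟨S, e⟩ := (h _).mp (h1 0)
    exact li.ne_zero 0 ((funext e).trans ((s1 S).trans (by simp [c])))
  have c2 := linearIndependent_le_span_aux' _ li ((Z.erase v).image st : Finset _) (by
    rintro _ ⟨j, rfl⟩
    obtain ⟨S, e⟩ := (h _).mp (h1 j)
    rw [show β j = fun e => (S (a e) + S v) + (S (b e) + S v) from funext fun i => by
      rw [e, add_add_add_comm, CharTwo.add_self_eq_zero, add_zero], s1 fun u => S u + S v,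
      ← sum_erase _ (a := v) (by rw [CharTwo.add_self_eq_zero, zero_smul])]
    exact Submodule.sum_mem _ fun u hu => Submodule.smul_mem _ _
      (Submodule.subset_span (mem_image_of_mem _ hu)))
  simp only [Fintype.card_fin, coe_sort_coe, Fintype.card_coe, card_univ] at c1 c2
  have := c2.trans (card_image_le.trans_eq (card_erase_of_mem hv))
  nlinarith [Nat.mul_le_mul_right w (show d + 2 ≤ #Z by omega)]

lemma gr_iff {m k : ℕ} (a b : Fin m → Fin k) (x : Fin m → ZMod 2) :
    x ∈ (graphic a b).C ↔ ∀ S : Fin k → ZMod 2, (fun e => S (a e) + S (b e)) ⬝ᵥ x = 0 := by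
  have : ∀ S : Fin k → ZMod 2, (fun e => S (a e) + S (b e)) ⬝ᵥ x =
      ∑ v, S v * (∑ e with a e = v, x e + ∑ e with b e = v, x e) := fun S => by
    simp only [dotProduct, add_mul, mul_add, sum_add_distrib, mul_sum, sum_filter, mul_ite, mul_zero]
    congr 1 <;> rw [sum_comm] <;> simp
  simp only [this]
  exact ⟨fun h S => sum_eq_zero fun v _ => by rw [h v, mul_zero], fun h v => by
    simpa [Pi.single_apply] using h (Pi.single v 1)⟩

lemma gr_dual {m k : ℕ} (a b : Fin m → Fin k) : Cographic (graphic a b).dual := by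
  let N : BM := ⟨m, LinearMap.range (LinearMap.funLeft (ZMod 2) _ a + LinearMap.funLeft (ZMod 2) _ b)⟩
  have e : (graphic a b).C = N.dual.C := Submodule.ext fun x => (gr_iff a b x).trans
    ⟨by rintro h _ ⟨S, rfl⟩; exact h S, fun h S => h _ ⟨S, rfl⟩⟩
  refine ⟨_, a, b, fun x => .trans (b := x ∈ N.C) ?_
    (exists_congr fun S => eq_comm.trans funext_iff)⟩
  rw [← dd N]
  change (∀ x ∈ (graphic a b).C, _) ↔ ∀ x ∈ N.dual.C, _
  rw [e]

lemma param {m k d : ℕ} {a b : Fin m → Fin k} (β : Fin d → Fin m → ZMod 2) (ch : Fin d → Fin m)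
    (S : Fin m → ℕ) (h : ∀ e g, bit (S e) (a g) + bit (S e) (b g) =
      (if g = e then 1 else 0) - ∑ j, if g = ch j then β j e else 0) {x : Fin m → ZMod 2}
    (hx : x ∈ (graphic a b).C) : x = ∑ j, x (ch j) • β j := by
  ext e
  have := (gr_iff a b x).mp hx fun v => bit (S e) v
  simp only [dotProduct, h, sub_mul, sum_sub_distrib, sum_mul, ite_mul, one_mul, zero_mul,
    sum_ite_eq', mem_univ, if_true] at this
  rw [sum_comm] at this
  simpa [Finset.sum_apply, mul_comm, sub_eq_zero] using this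

lemma nPet : ¬ Cographic Pet := fun h => by
  let β : Fin 6 → Fin 15 → ZMod 2 := fun j e =>
    bit (![19, 55, 61, 41, 1, 18, 36, 10, 20, 40, 2, 4, 8, 16, 32] e) j
  refine absurd (bound h (w := 5) (fun x hx n => ?_) β (fun j v => ?_) (by decide +kernel)) (by decide)
  · have := param β ![4, 10, 11, 12, 13, 14] ![33, 99, 231, 495, 0, 32, 64, 128, 256, 511, 0, 0, 0, 0,
      0] (by decide +kernel) hx
    rw [this] at n ⊢
    exact (by decide +kernel : ∀ c : Fin 6 → ZMod 2, ∑ j, c j • β j ≠ 0 →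
      5 ≤ #{e | (∑ j, c j • β j) e ≠ 0}) _ n
  · revert j v; decide +kernel

lemma nK5 : ¬ Cographic K5 := fun h => by
  let β : Fin 6 → Fin 10 → ZMod 2 := fun j e => bit (![7, 25, 42, 52, 1, 2, 4, 8, 16, 32] e) j
  refine absurd (bound h (w := 3) (fun x hx n => ?_) β (fun j v => ?_) (by decide +kernel)) (by decide)
  · have := param β ![4, 5, 6, 7, 8, 9] ![2, 4, 8, 15, 0, 0, 0, 0, 0, 0] (by decide +kernel) hx
    rw [this] at n ⊢
    exact (by decide +kernel : ∀ c : Fin 6 → ZMod 2, ∑ j, c j • β j ≠ 0 →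
      3 ≤ #{e | (∑ j, c j • β j) e ≠ 0}) _ n
  · revert j v; decide +kernel

lemma nF : ¬ Cographic Fano.dual := fun h => by
  have k : ∀ y, y ∈ Fano.dual.C ↔ ∀ i : Fin 7,
      (fun e : Fin 7 => if e = i ∨ e = i + 1 ∨ e = i + 3 then 1 else 0) ⬝ᵥ y = 0 := fun y =>
    ⟨fun h i => h _ (Submodule.subset_span ⟨i, rfl⟩), fun h x hx => by
      induction hx using Submodule.span_induction with
      | mem _ c => obtain ⟨i, rfl⟩ := c; exact h i
      | zero => exact zero_dotProduct _
      | add _ _ _ _ a b => rw [add_dotProduct, a, b, add_zero]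
      | smul _ _ _ a => rw [smul_dotProduct, a, smul_zero]⟩
  refine absurd (bound h (w := 4) (d := 2) ?_ (fun j e => bit (![116, 105, 83] j) e) ?_
    (by decide +kernel)) (by decide)
  · simp only [k]
    decide +kernel
  · simp only [k]
    decide +kernel

abbrev M₁ : BM := graphic (k := 10) ![0, 0, 0, 0, 1, 1, 1, 1, 2, 3, 4, 5, 6, 7, 8, 9]
  ![2, 4, 6, 8, 3, 5, 7, 9, 3, 4, 5, 6, 7, 8, 9, 2]

def β (j : Fin 7) (e : Fin 16) : ZMod 2 := bit (col e) j

lemma m1 : M₁.C = LinearMap.range (Fintype.linearCombination (ZMod 2) β) := by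
  refine le_antisymm (fun x hx => ⟨fun j => x (![9, 10, 11, 12, 13, 14, 15] j), (param β ![9, 10, 11, 12, 13, 14, 15] ![337, 16, 64, 256, 349,
    32, 128, 511, 341, 0, 0, 0, 0, 0, 0, 0] (by decide +kernel) hx).symm⟩) ?_
  rintro _ ⟨c, rfl⟩
  have : ∀ j, β j ∈ M₁.C := fun j v => by revert j v; decide +kernel
  rw [Fintype.linearCombination_apply]
  exact Submodule.sum_mem _ fun j _ => Submodule.smul_mem _ _ (this j)

lemma m2 : Function.Injective (Fintype.linearCombination (ZMod 2) β) :=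
  (injective_iff_map_eq_zero _).mpr (by
    simp only [Fintype.linearCombination_apply]; decide +kernel)

lemma m3 : ¬ Alternating M₁ := fun h => by
  classical
  have := h 0 (Nat.zero_le _)
  rw [m1, LinearMap.finrank_range_of_inj m2, show (penrose M₁).coeff 0 = 160 from ?_] at this
  · norm_num at this
  rw [← Pool.Agent.H6.Pen.main, penrose, Polynomial.finsetSum_coeff]
  refine sum_congr rfl fun A _ => ?_
  rw [Polynomial.mul_coeff_zero, Polynomial.coeff_X_pow, mul_ite, mul_one, mul_zero]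
  refine if_congr ?_ (by rw [Polynomial.coeff_zero_eq_eval_zero]; simp) rfl
  rw [eq_comm, Submodule.finrank_eq_zero, Submodule.eq_bot_iff]
  have k : ∀ c : Fin 7 → ZMod 2, Fintype.linearCombination (ZMod 2) β c ∈ bicycle M₁ A ↔
      ∀ j : Fin 7, ∑ e ∈ A, (∑ i, c i * bit (col e) i) * bit (col e) j = 0 := fun c => by
    have e : ∀ x : Fin 16 → ZMod 2, x ⬝ᵥ ((fun e => if e ∈ A then 1 else 0) *
        Fintype.linearCombination (ZMod 2) β c) = ∑ e ∈ A, (∑ i, c i * bit (col e) i) * x e :=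
      fun x => by simp [dotProduct, Fintype.linearCombination_apply, Finset.sum_apply, β, mul_comm]
    refine ⟨fun h j => (e (β j)).symm.trans (h.2 _ (m1 ▸ ⟨Pi.single j 1, by simp⟩)), fun h =>
      ⟨m1 ▸ ⟨c, rfl⟩, fun x hx => ?_⟩⟩
    obtain ⟨u, rfl⟩ := m1.le hx
    rw [Fintype.linearCombination_apply _ _ u, sum_dotProduct]
    exact sum_eq_zero fun j _ => by rw [smul_dotProduct]; exact smul_eq_zero_of_right _ ((e _).trans (h j))
  refine ⟨fun h c hc => m2 ((h _ ((k c).mpr hc)).trans (map_zero _).symm), fun h x hx => ?_⟩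
  obtain ⟨c, rfl⟩ := m1.le hx.1
  rw [h c ((k c).mp hx), map_zero]

lemma m4 : Cographic M₁ := by
  let a : Fin 16 → Fin 8 := ![0, 0, 2, 4, 1, 1, 3, 5, 0, 0, 1, 2, 3, 4, 5, 6]
  let b : Fin 16 → Fin 8 := ![7, 2, 4, 7, 6, 3, 5, 6, 6, 1, 2, 3, 4, 5, 7, 7]
  refine ⟨_, a, b, fun x => ⟨fun hx => ?_, fun ⟨S, h⟩ => ?_⟩⟩
  · obtain ⟨c, rfl⟩ := m1.le hx
    refine ⟨fun v => ∑ j, c j * bit (![1, 3, 7, 15, 31, 63, 64] j) v, ?_⟩
    simp only [Fintype.linearCombination_apply]
    clear hx
    revert c; decide +kernel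
  · rw [funext h]
    clear h
    intro v
    revert S v; decide +kernel

theorem result : ∃ N, MinimalNonAlt N ∧ Cographic N ∧ Cographic N.dual ∧
    ¬ Iso N Fano.dual ∧ ¬ Iso N Pet ∧ ¬ Iso N K5.dual := by
  have k : ∀ n, ∀ M : BM, M.n = n → Bridgeless M → ¬ Alternating M → Cographic M →
      Cographic M.dual → ∃ N, MinimalNonAlt N ∧ Cographic N ∧ Cographic N.dual := by
    intro n
    induction n using Nat.strong_induction_on with
    | _ n ih =>
      rintro M rfl h1 h2 h3 h4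
      by_cases c : MinimalNonAlt M
      · exact ⟨M, c, h3, h4⟩
      simp only [MinimalNonAlt, h1, h2, not_false_eq_true, true_and, not_forall] at c
      obtain ⟨N, s, l, b, a⟩ := c
      have : Cographic N ∧ Cographic N.dual := by
        clear l b a
        induction s with
        | refl => exact ⟨h3, h4⟩
        | tail _ s i => exact ⟨i.1.step s, i.2.step s.dual⟩
      exact ih _ l N rfl b a this.1 this.2
  obtain ⟨N, h1, h2, h3⟩ := k _ M₁ rfl (fun e => by
    obtain ⟨j, h⟩ := (by decide +kernel : ∀ e, ∃ j, β j e ≠ 0) e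
    exact ⟨β j, m1 ▸ ⟨Pi.single j 1, by simp⟩, h⟩) m3 m4 (gr_dual _ _)
  refine ⟨N, h1, h2, h3, fun h => nF (h2.step h.step), fun h => nPet (h2.step h.step),
    fun h => nK5 ?_⟩
  obtain ⟨V, a, b, c⟩ := h3.step h.step.dual
  exact ⟨V, a, b, fun x => (dd K5 ▸ c x :)⟩

end Pool.Agent.Results.MP_5bb8bc_co.Counter
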